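import Pool.Agent.N565.LZ.Fin

/-!
# The sign of the Gauss–Bonnet–Chern integrand for causal second fundamental forms

`SmallCodim m N`: `N ≤ 5`, or `N ≤ 7` and `m ≤ 8`, or `N ≤ 9` and `m ≤ 4`, or `N ≤ 11` and `m ≤ 3`.

`CausalOn U N S`: `S(x,y,z,w) = ∑ (β_k(x,z) β_k(y,w) - β_k(x,w) β_k(y,z)) - (b(x,z) b(y,w) -
b(x,w) b(y,z))` for symmetric bilinear forms `b, β_1, …, β_N` on `U` (extended by zero) such that
`(b(x,x), β_1(x,x), …, β_N(x,x))` lies in the closed future light cone of the Lorentzian space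
`ℝ ⊕ ℝᴺ` for all `x`: the Gauss equation of a second fundamental form with causal values.

`CausalBlocks δ R`: `R = ∑ S_i - ∑ (x_k ∧ y_k)² - δ · (unit tensor)` for an orthogonal
decomposition of the space into any number of blocks, `S_i` a tensor of this kind on the block `i`,
with `SmallCodim (dim U_i / 2) N_i`, and each `x_k` and each `y_k` in one of the blocks.

(1) In every even dimension `(-1)^m` times the Gauss–Bonnet–Chern integrand of `R` is at least its
value for constant curvature `-δ`. (2), (3) Integrated forms. (4) Submanifolds of dimension `2 m`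
and codimension `N` of a space of constant curvature `-c` with
`|II(x,x)|² ≤ (c - δ) |x|⁴`.
-/

set_option autoImplicit false

namespace Pool.Agent.Results.MP_5a30bb_gt.CausalSecondForm

open Pool.Agent.W666.GB Pool.Agent.W669.HD Pool.Agent.N565.LZ

/-- The pointwise bound. -/
def Pointwise : Prop :=
  ∀ (m : ℕ) (V : Type) [NormedAddCommGroup V] [InnerProductSpace ℝ V]
    (e : OrthonormalBasis (Fin m × Bool) ℝ V) (R : V → V → V → V → ℝ) (δ : ℝ),
    0 ≤ δ → CausalBlocks δ R → roundGB m δ ≤ (-1) ^ m * gbc e R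

/-- The sign of the integral. -/
def IntegralSign : Prop :=
  ∀ (m : ℕ) (M : Type) [MeasurableSpace M] (μ : MeasureTheory.Measure M) (K : CurvField m M),
    (∀ p, CausalBlocks 0 (K.R p)) → 0 ≤ (-1) ^ m * ∫ p, K.gb p ∂μ

/-- The lower bound for the integral. -/
def IntegralBound : Prop :=
  ∀ (m : ℕ) (M : Type) [MeasurableSpace M] (μ : MeasureTheory.Measure M)
    [MeasureTheory.IsFiniteMeasure μ] (K : CurvField m M) (δ : ℝ),
    MeasureTheory.Integrable K.gb μ → 0 ≤ δ → (∀ p, CausalBlocks δ (K.R p)) →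
      roundGB m δ * μ.real Set.univ ≤ (-1) ^ m * ∫ p, K.gb p ∂μ

/-- Submanifolds of spaces of constant curvature `-c`; `W` is the normal space. -/
def SpaceForms : Prop :=
  ∀ (m : ℕ) (V W : Type) [NormedAddCommGroup V] [InnerProductSpace ℝ V]
    [NormedAddCommGroup W] [InnerProductSpace ℝ W] [FiniteDimensional ℝ W]
    (e : OrthonormalBasis (Fin m × Bool) ℝ V) (β : V → V → W) (c δ : ℝ),
    SecForm β → 0 ≤ δ → δ ≤ c → (∀ x, ‖β x x‖ ^ 2 ≤ (c - δ) * ‖x‖ ^ 4) →
    SmallCodim m (Module.finrank ℝ W) → roundGB m δ ≤ (-1) ^ m * gbc e (gaussT c β)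

theorem result : Pointwise ∧ IntegralSign ∧ IntegralBound ∧ SpaceForms :=
  ⟨fun _ _ _ _ e _ _ hδ h => causal_bound e hδ h,
    fun _ _ _ μ K h => field_causal μ K h,
    fun _ _ _ μ _ K _ hi hδ h => field_causalδ μ K hi hδ h,
    fun _ _ _ _ _ _ _ _ e _ _ _ hs hδ hc hβ hN => space_form e hs hδ hc hβ hN⟩

end Pool.Agent.Results.MP_5a30bb_gt.CausalSecondForm
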