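import Pool.Agent.N509.HN.Fi

/-!
# Pinching with constants independent of the dimension

For curvature tensors on Euclidean spaces of dimension `n = 2 m` (conventions: `R x y x y` is the
sectional curvature of an orthonormal pair, `unitT` the tensor of constant curvature one, `OpNonneg`
means that the curvature operator is nonnegative, `gbc` is the Gauss–Bonnet–Chern integrand and
`roundGB m c` its absolute value for constant curvature `± c`).

* `OpPinched κ R`: the curvature operator is at least `-κ` and all sectional curvatures are at most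
  `-(31/32) κ`. No upper bound of the curvature operator; its largest eigenvalue can be positive and
  of the order `κ n`.
* `FramePinched m κ R`: `R = -κ + E₁ + E₂`, where `E₁` has a nonnegative curvature operator and
  sectional curvatures at most `(1 - t)² κ / 144`, and in every orthonormal basis `f` the matrix of
  the numbers `E₂(f_a, f_b, f_a, f_b)` is at most `(t² κ / 144) (1 + T / 2)`, `T` being the matrix all
  of whose entries are one (a bound of the curvature operator of the second kind), `0 < t < 1`.

The constants are the same in all dimensions; in the classical pinching criteria for the sign they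
tend to zero as `n → ∞`.

Proof (`Pool/Agent/N509/HN/`): the integrand of `-(g ∧ g) - ∑ h_k ∧ h_k + ∑ B_a ⊗ B_a` is the mean of
`det (s g + ∑ ζ_k h_k + i ∑ ξ_a B_a)` over independent Gaussian variables `s, ζ, ξ`. The matrix is
Hermitian, so the determinant is at least `a^n |s|^n - b^n ‖·‖^n`, and the mean of the `n`-th power of
the norm is bounded, up to the factor `4^n`, by that of the values of the bilinear form at Gaussian
vectors, i.e. by the sectional curvatures.
-/

set_option autoImplicit false

namespace Pool.Agent.Results.MP_5a30bb_gt.DimensionFreePinching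

open Pool.Agent.W666.GB Pool.Agent.W669.HD Pool.Agent.Y519.HB Pool.Agent.N509.HN MeasureTheory

/-- **Pinching with constants independent of the dimension.** -/
theorem result :
    -- (1) pinched tensors, minus squares `(x_k ∧ y_k)²`, minus `δ` times the unit tensor
    (∀ (m : ℕ) (V : Type) [NormedAddCommGroup V] [InnerProductSpace ℝ V]
      (e : OrthonormalBasis (Fin m × Bool) ℝ V) (S R : V → V → V → V → ℝ) (κ δ : ℝ) (n : ℕ)
      (x y : Fin n → V), 0 < m → 0 ≤ κ → 0 ≤ δ → OpPinched κ S ∨ FramePinched m κ S →
      (∀ a b c d, R a b c d = S a b c d - (∑ k, sqDec (x k) (y k) a b c d) -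
        δ * unitT a b c d) →
      5 / 8 * (4 / 9) ^ m * roundGB m κ + roundGB m δ ≤ (-1) ^ m * gbc e R) ∧
    -- (2) the same relative to a positive semidefinite form `g` in place of the metric
    (∀ (m : ℕ) (V : Type) [NormedAddCommGroup V] [InnerProductSpace ℝ V]
      (e : OrthonormalBasis (Fin m × Bool) ℝ V) (g : V → V → ℝ) (S R : V → V → V → V → ℝ) (δ : ℝ)
      (n : ℕ) (x y : Fin n → V), 0 < m → 0 ≤ δ → PosForm g → GenNear g S ∨ SkewNear g S →
      (∀ a b c d, R a b c d = S a b c d - (∑ k, sqDec (x k) (y k) a b c d) -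
        δ * unitT a b c d) →
      5 / 8 * (4 / 9) ^ m * (Matrix.of fun i j => g (e i) (e j)).det * roundGB m 1 +
        roundGB m δ ≤ (-1) ^ m * gbc e R) ∧
    -- (3) orthogonal sums of such tensors
    (∀ (m : ℕ) (V : Type) [NormedAddCommGroup V] [InnerProductSpace ℝ V]
      (e : OrthonormalBasis (Fin m × Bool) ℝ V) (R : V → V → V → V → ℝ) (δ : ℝ), 0 ≤ δ →
      NearBlocks δ R → roundGB m δ ≤ (-1) ^ m * gbc e R) ∧
    -- (4) the integrated forms
    (∀ (m : ℕ) (M : Type) [MeasurableSpace M] (μ : Measure M) (K : CurvField m M),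
      (∀ p, NearBlocks 0 (K.R p)) → 0 ≤ (-1) ^ m * ∫ p, K.gb p ∂μ) ∧
    (∀ (m : ℕ) (M : Type) [MeasurableSpace M] (μ : Measure M) (K : CurvField m M) (κ : M → ℝ),
      (∀ p, 0 < κ p ∧ (OpPinched (κ p) (K.R p) ∨ FramePinched m (κ p) (K.R p))) →
      Integrable K.gb μ → μ ≠ 0 → 0 < (-1) ^ m * ∫ p, K.gb p ∂μ) ∧
    (∀ (m : ℕ) (M : Type) [MeasurableSpace M] (μ : Measure M) [IsFiniteMeasure μ]
      (K : CurvField m M) (κ : ℝ), 0 ≤ κ → (∀ p, OpPinched κ (K.R p) ∨ FramePinched m κ (K.R p)) →
      Integrable K.gb μ →
        5 / 8 * (4 / 9) ^ m * roundGB m κ * μ.real Set.univ ≤ (-1) ^ m * ∫ p, K.gb p ∂μ) :=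
  ⟨fun _ _ _ _ e _ _ _ _ _ _ _ hm hκ hδ h hR => pinched_super hm e hκ h hδ hR,
    fun _ _ _ _ e _ _ _ _ _ _ _ hm hδ hg h hR => gen_super hm e hg h hδ hR,
    fun _ _ _ _ e _ _ hδ h => blocks_bound e hδ h,
    fun _ _ _ μ K h => field_blocks μ K h,
    fun _ _ _ μ K κ h hi hμ => field_pinched μ K κ h hi hμ,
    fun _ _ _ μ _ K _ hκ h hi => field_lower μ K hκ h hi⟩

end Pool.Agent.Results.MP_5a30bb_gt.DimensionFreePinching
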