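import Pool.Agent.W666.GB.Main

/-!
# The Hopf sign for nearly constant negative curvature in all even dimensions

Let `n = 2 m`. If at every point of a Riemannian `n`-manifold the curvature tensor is close to that of
the constant curvature `-κ`, where `-κ < 0` is the mean of the sectional curvatures at the point (it
may depend on the point), then `(-1)^m` times the Gauss–Bonnet–Chern integrand differs from its value
for constant curvature `-κ` by at most one fifth, so the sign of the Euler characteristic is
`(-1)^m`. Close means here that the Hilbert–Schmidt distances of the curvature tensors and of the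
Ricci tensors are at most `10⁻⁶ κ n`; the Hilbert–Schmidt norm of the tensor of constant curvature
`-κ` is `κ √(2 n (n - 1))`, so this is a fixed relative distance, the same in all dimensions.
It holds in particular if the sectional curvatures at each point lie in `[-b, -a]` with
`b - a ≤ (3 / 4) 10⁻⁶ a / √n`.

The proof (`Pool/Agent/W666/GB/`) writes the integrand as an average over independent signs and uses
determinant bounds, mixed discriminants and exponential moments.
-/

set_option autoImplicit false

namespace Pool.Agent.Results.MP_5a30bb_gt.NearConstantCurvature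

open Pool.Agent.W666.GB MeasureTheory

/-- **The Hopf sign in dimension `n = 2 m` for nearly constant negative curvature.** -/
theorem result :
    -- (1) the pointwise estimate
    (∀ (m : ℕ) (V : Type) [NormedAddCommGroup V] [InnerProductSpace ℝ V]
      (e : OrthonormalBasis (Fin m × Bool) ℝ V) (R : V → V → V → V → ℝ) (κ : ℝ),
      AlgCurv R → 0 < κ → Near e R κ →
        |(-1) ^ m * gbc e R - roundGB m κ| ≤ 1 / 5 * roundGB m κ) ∧
    -- (2) sectional curvature pinching of the order `1 / √n`
    (∀ (m : ℕ) (V : Type) [NormedAddCommGroup V] [InnerProductSpace ℝ V]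
      (e : OrthonormalBasis (Fin m × Bool) ℝ V) (R : V → V → V → V → ℝ) (a b : ℝ),
      0 < m → AlgCurv R → 0 < a → SecIn R (-b) (-a) →
      b - a ≤ 3 / 4 * (1 / 10 ^ 6) * a / Real.sqrt (2 * m) →
        4 / 5 * roundGB m a ≤ (-1) ^ m * gbc e R) ∧
    -- (3) the integrated form
    (∀ (m : ℕ) (M : Type) [MeasurableSpace M] (μ : Measure M) (K : CurvField m M) (κ : M → ℝ),
      (∀ p, 0 < κ p ∧ Near (K.e p) (K.R p) (κ p)) → Integrable K.gb μ → μ ≠ 0 →
        0 < (-1) ^ m * ∫ p, K.gb p ∂μ) := by
  refine ⟨?_, ?_, ?_⟩
  · intro m V _ _ e R κ hR hκ h
    exact near_close e hR hκ h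
  · intro m V _ _ e R a b hm hR ha hs hab
    exact sec_pinched e hm hR ha hs hab
  · intro m M _ μ K κ h hi hμ
    have hpos : ∀ p, 0 < (-1) ^ m * K.gb p := fun p =>
      near_pos (K.e p) (K.curv p) (h p).1 (h p).2
    rw [← integral_const_mul]
    rw [integral_pos_iff_support_of_nonneg (fun p => (hpos p).le) (hi.const_mul _)]
    have hs : (Function.support fun p => (-1) ^ m * K.gb p) = Set.univ := by
      ext p
      simp only [Function.mem_support, Set.mem_univ, iff_true]
      exact (hpos p).ne'
    rw [hs]
    rw [pos_iff_ne_zero]
    simpa using hμ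

end Pool.Agent.Results.MP_5a30bb_gt.NearConstantCurvature
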