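import Pool.Agent.N256.UR.Expl

/-!
# The sign of the Gauss–Bonnet–Chern integrand in dimension six: curvature tensors which are
# invariant under a unitary reflection of the complexified tangent space

Let `V` be a Euclidean space of dimension six, `R` an algebraic curvature tensor on `V` and
`V ⊗ ℂ = E ⊕ E'` an orthogonal splitting into two complex subspaces of dimension three such that the
Hermitian form `R^ℂ (·, conj ·)` on the complex bivectors has no mixed terms between
`Λ² E ⊕ Λ² E'` and `E ∧ E'` (`UnitarySplit`; the splitting is given by a unitary frame `f`).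

(1) If `R^ℂ (z, w, conj z, conj w) ≤ -κ |z|² |w|²` for `z ∈ E`, `w ∈ E'` and if the curvature operator
is at most `-η` on `Λ² E ⊕ Λ² E'`, where `κ, η ≥ 0`, then minus the Gauss–Bonnet–Chern integrand is at
least `twoGB κ η = (2 κ³ + 3 κ η²) / 5` times its absolute value `roundGB 3 1` for constant curvature
one; so it is nonnegative, positive if `κ > 0`, and at least its value for the constant curvature `-κ`
if `κ = η`. Nothing is assumed about the curvature operator on the nine-dimensional space `E ∧ E'`,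
except on its decomposable elements `z ∧ w`.

(2) The case of a `J`-invariant curvature tensor (Gray's identity `AH₃`) of an almost Hermitian
six-manifold, where `E`, `E'` are the vectors of type `(1,0)` and `(0,1)`: the hypotheses are the two
inequalities, for all real `x`, `y`,
`R x y x y + R x Jy x Jy + R x Jx y Jy ≤ - 2 κ |x|² |y|²` and
`R x y x y - R x y Jx Jy ≤ - η (|x|² |y|² - ⟨x, y⟩² - ⟨x, Jy⟩²)`.

(3) If moreover Gray's identity `AH₂` holds (for instance for nearly Kähler manifolds), the second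
inequality can be replaced by
`R x y x y + R x Jy x Jy - R x Jx y Jy ≤ - 2 η (|x|² |y|² - ⟨x, y⟩² - ⟨x, Jy⟩²)`.
For Kähler tensors and `η = 0` this holds with equality.

(4) The integrated forms of (1), (2) for fields of curvature tensors.

(5) Every even dimension `2 m`: the lower bound `roundGB m δ` (the value for constant curvature
`-δ`) for `(-1)^m` times the integrand of `∑ S_i - ∑ (x_k ∧ y_k)² - δ (unit tensor)`, where `S_i` are
curvature tensors of nonpositive sectional curvature on the blocks of an orthogonal decomposition, the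
blocks have dimension at most five, or dimension six and then `S_i` is of one of the two types (1),
(2) with `κ = η = 0`, and every `x_k` and every `y_k` lies in a block. (6) The integrated form of (5).
-/

set_option autoImplicit false

namespace Pool.Agent.Results.MP_5a30bb_gt.UnitaryReflection

open Pool.Agent.W666.GB Pool.Agent.TH598.GV Pool.Agent.N256.UR MeasureTheory

/-- **Hopf sign in dimension six for curvature tensors invariant under a unitary reflection**, in
particular for `J`-invariant curvature tensors, and for block sums in all even dimensions. -/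
theorem result :
    (∀ (V : Type) [NormedAddCommGroup V] [InnerProductSpace ℝ V]
      (e : OrthonormalBasis (Fin 3 × Bool) ℝ V) (R : V → V → V → V → ℝ) (κ η : ℝ)
      (f : Fin 3 × Bool → V × V), AlgCurv R → 0 ≤ κ → 0 ≤ η → UnitarySplit R κ η f →
        twoGB κ η ≤ (-1) ^ 3 * gbc e R) ∧
    (∀ (V : Type) [NormedAddCommGroup V] [InnerProductSpace ℝ V]
      (e : OrthonormalBasis (Fin 3 × Bool) ℝ V) (R : V → V → V → V → ℝ) (κ η : ℝ)
      (J : V →ₗ[ℝ] V), AlgCurv R → 0 ≤ κ → 0 ≤ η → HermJ J → JInv R J →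
      (∀ x y, R x y x y + R x (J y) x (J y) + R x (J x) y (J y) ≤
        -(2 * κ * (‖x‖ ^ 2 * ‖y‖ ^ 2))) →
      (∀ x y, R x y x y - R x y (J x) (J y) ≤
        -(η * (‖x‖ ^ 2 * ‖y‖ ^ 2 - inner ℝ x y ^ 2 - inner ℝ x (J y) ^ 2))) →
        twoGB κ η ≤ (-1) ^ 3 * gbc e R) ∧
    (∀ (V : Type) [NormedAddCommGroup V] [InnerProductSpace ℝ V]
      (e : OrthonormalBasis (Fin 3 × Bool) ℝ V) (R : V → V → V → V → ℝ) (κ η : ℝ)
      (J : V →ₗ[ℝ] V), AlgCurv R → 0 ≤ κ → 0 ≤ η → HermJ J → JInv R J → JInv2 R J →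
      (∀ x y, R x y x y + R x (J y) x (J y) + R x (J x) y (J y) ≤
        -(2 * κ * (‖x‖ ^ 2 * ‖y‖ ^ 2))) →
      (∀ x y, R x y x y + R x (J y) x (J y) - R x (J x) y (J y) ≤
        -(2 * η * (‖x‖ ^ 2 * ‖y‖ ^ 2 - inner ℝ x y ^ 2 - inner ℝ x (J y) ^ 2))) →
        twoGB κ η ≤ (-1) ^ 3 * gbc e R) ∧
    (∀ (M : Type) [MeasurableSpace M] (μ : Measure M) (K : CurvField 3 M) (κ η : M → ℝ),
      (∀ p, 0 ≤ κ p ∧ 0 ≤ η p ∧ ReflAt (K.R p) (κ p) (η p)) →
      0 ≤ (-1) ^ 3 * ∫ p, K.gb p ∂μ ∧
      (Integrable K.gb μ → Integrable (fun p => twoGB (κ p) (η p)) μ →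
        ∫ p, twoGB (κ p) (η p) ∂μ ≤ (-1) ^ 3 * ∫ p, K.gb p ∂μ) ∧
      (Integrable K.gb μ → μ {p | 0 < κ p} ≠ 0 → 0 < (-1) ^ 3 * ∫ p, K.gb p ∂μ)) ∧
    (∀ (m : ℕ) (V : Type) [NormedAddCommGroup V] [InnerProductSpace ℝ V]
      (e : OrthonormalBasis (Fin m × Bool) ℝ V) (R : V → V → V → V → ℝ) (δ : ℝ),
      0 ≤ δ → ReflBlocks δ R → roundGB m δ ≤ (-1) ^ m * gbc e R) ∧
    (∀ (m : ℕ) (M : Type) [MeasurableSpace M] (μ : Measure M) (K : CurvField m M) (δ : M → ℝ),
      (∀ p, 0 ≤ δ p ∧ ReflBlocks (δ p) (K.R p)) →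
      0 ≤ (-1) ^ m * ∫ p, K.gb p ∂μ ∧
      (Integrable K.gb μ → Integrable (fun p => roundGB m (δ p)) μ →
        ∫ p, roundGB m (δ p) ∂μ ≤ (-1) ^ m * ∫ p, K.gb p ∂μ)) :=
  ⟨fun _ _ _ e _ _ _ _ hR hκ hη hf => pointC e hR hκ hη hf,
    fun _ _ _ e _ _ _ _ hR hκ hη hJ hi h1 h2 => pointJ_expl e hR hκ hη hJ hi h1 h2,
    fun _ _ _ e _ _ _ _ hR hκ hη hJ hi hi2 h1 h2 => pointJ2 e hR hκ hη hJ hi hi2 h1 h2,
    fun _ _ μ K κ η h => fieldR μ K κ η h,
    fun _ _ _ _ e _ _ hδ h => refl_blocks e hδ h,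
    fun _ _ _ μ K δ h => fieldB μ K δ h⟩

end Pool.Agent.Results.MP_5a30bb_gt.UnitaryReflection
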